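import Mathlib
import Pool.Agent.Q29.DigMany
import Pool.Agent.W472.AC.EMeas2

/-!
# The digits of all the numbers `b e + c π`

If `1, e, π` are linearly dependent over the rationals, then for one pair `(b, c)` of coprime integers the number
`b e + c π` is rational, and the linear complexity of its digits (the least order of a linear recurrence which the first `L`
digits satisfy) is bounded. We show that at each scale all directions `(b, c)` with at most one exception, of heights up to a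
power of the scale, have digits of large linear complexity, in all bases at once: let `t` be any real number, for instance
`t = π`, let `(b, c)`, `(b', c')` be integer vectors which are not proportional and let `g`, `g'` be two bases, equal or
different. Let `N` be the linear complexity of the first `L` digits of `b e + c t` in base `g` and `N'` that of the first `L'`
digits of `b' e + c' t` in base `g'`. Then, up to error terms of the order of `√(N log N)`,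

`min (L log g, L' log g') ≤ (2 + η) (N log g + N' log g') + (3 + 2 η) log M`,

where `M` is a bound for `|b|, |c|, |b'|, |c'|`; the constants do not depend on `t`, `M`, `g`, `g'`. (For an algebraic
irrational number `x` one has `L ≤ (2 + η) N + O(√(N log N))` by Roth's theorem.) It follows that for `ε > 0`, at each large
scale `Λ`, at most one direction `(b, c)` of height at most `e^(δ Λ)`, `δ = δ(ε) > 0`, is such that for some base
`g ≤ e^(δ Λ)` the linear complexity of the first `⌊Λ / log g⌋` digits of `b e + c t` is smaller than `(1/4 - ε) Λ / log g`.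

The proof uses the measure of irrationality of `e` with the exponent `2 + η` and the approximations given by a short
recurrence, uniformly in the base (`Pool/Agent/Y928/PL/Mixed.lean`).
-/

set_option autoImplicit false

namespace Pool.Agent.Results.MP_58e087_nt.AllDirections

open Finset

/-- the `i`-th digit of `x` after the point in base `g` -/
noncomputable def digit (g : ℕ) (x : ℝ) (i : ℕ) : ℤ := ⌊x * (g : ℝ) ^ i⌋ % (g : ℤ)

/-- the linear complexity of the first `L` digits of `x` in base `g`: the least `m` such that for some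
rational numbers `c_0, …, c_(m-1)` one has `s_(i+m) = c_0 s_i + … + c_(m-1) s_(i+m-1)` for
`1 ≤ i ≤ L - m`, where `s_i` is the `i`-th digit -/
noncomputable def complexity (g : ℕ) (x : ℝ) (L : ℕ) : ℕ :=
  sInf {m | ∃ c : ℕ → ℚ, ∀ i : ℕ, 1 ≤ i → i + m ≤ L →
    (digit g x (i + m) : ℚ) = ∑ j ∈ range m, c j * (digit g x (i + j) : ℚ)}

/-- the function `m + C √((m+1) log (m+2))` -/
noncomputable def F (C : ℝ) (m : ℕ) : ℝ :=
  m + C * Real.sqrt (((m : ℝ) + 1) * Real.log ((m : ℝ) + 2))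

open Pool.Agent.W47.JL in
/-- the approximations given by a recurrence of the digits -/
theorem approx (g : ℕ) (hg : 2 ≤ g) (x : ℝ) (L : ℕ) : ∃ q : ℕ, 1 ≤ q ∧ ∃ p : ℤ,
    (q : ℝ) ≤ Real.exp (((complexity g x L : ℝ) + 15 * err (complexity g x L) + 1) * Real.log g) ∧
    |(q : ℝ) * x - p| ≤ Real.exp (((complexity g x L : ℝ) + 15 * err (complexity g x L) + 1) * Real.log g -
      L * Real.log g) := by
  have hg0 : (0 : ℝ) < g := by exact_mod_cast (by omega : 0 < g)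
  obtain ⟨n, hn⟩ := Pool.Agent.Q29.Dig.digit_sum g hg x
  have hatt : ∃ c : ℕ → ℚ, ∀ i : ℕ, 1 ≤ i → i + complexity g x L ≤ L →
      (digit g x (i + complexity g x L) : ℚ) = ∑ j ∈ range (complexity g x L), c j * (digit g x (i + j) : ℚ) := by
    refine Nat.sInf_mem (s := {m | ∃ c : ℕ → ℚ, ∀ i : ℕ, 1 ≤ i → i + m ≤ L →
      (digit g x (i + m) : ℚ) = ∑ j ∈ range m, c j * (digit g x (i + j) : ℚ)}) ?_
    exact ⟨L, fun _ => 0, fun i h1 h2 => by omega⟩
  obtain ⟨c, hc⟩ := hatt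
  obtain ⟨N, hN⟩ : ∃ N, N = complexity g x L := ⟨_, rfl⟩
  rw [← hN] at hc ⊢
  have hdig : ∀ i, |digit g x (i + 1)| ≤ ((g ^ 1 : ℕ) : ℤ) := by
    intro i
    have h0 : 0 ≤ digit g x (i + 1) := Int.emod_nonneg _ (by omega)
    rw [abs_of_nonneg h0, pow_one]
    exact (Int.emod_lt_of_pos _ (by omega : (0 : ℤ) < g)).le
  obtain ⟨q, hq, p, h1, h2⟩ := Pool.Agent.Y928.PL.core2 1 g le_rfl hg (x - n) (fun i => digit g x (i + 1)) hdig hn
    L N c (fun i hi => by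
      have h3 := hc (i + 1) (by omega) (by omega)
      rw [show i + N + 1 = i + 1 + N by ring, h3]
      exact Finset.sum_congr rfl fun l _ => by rw [show i + l + 1 = i + 1 + l by ring])
  refine ⟨q, hq, p + q * n, ?_, ?_⟩
  · rw [Real.rpow_def_of_pos hg0] at h1
    refine h1.trans (le_of_eq ?_)
    congr 1
    push_cast
    ring
  · have e : (q : ℝ) * x - ((p + q * n : ℤ) : ℝ) = (q : ℝ) * (x - n) - p := by push_cast; ring
    rw [e]
    rw [Real.rpow_def_of_pos hg0] at h2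
    refine h2.trans (le_of_eq ?_)
    congr 1
    push_cast
    ring

/-- the measure of irrationality of `e` -/
theorem meas (η : ℝ) (hη : 0 < η) : ∃ c : ℝ, 0 < c ∧ ∀ (a₀ a₁ : ℤ) (H : ℝ), a₁ ≠ 0 → 1 ≤ H → |(a₀ : ℝ)| ≤ H →
    |(a₁ : ℝ)| ≤ H → c ≤ H ^ (1 + η) * |(a₀ : ℝ) + a₁ * Real.exp 1| := by
  obtain ⟨c, hc, h⟩ := Pool.Agent.W472.AC.e_meas 1 (fun i => ((i : ℕ) : ℤ)) (fun i j hij => by
    apply Fin.ext
    simpa using hij) (by simp) (fun i => by positivity) η hη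
  refine ⟨c, hc, fun a₀ a₁ H ha hH h0 h1 => ?_⟩
  have h2 := h (![a₀, a₁] : Fin (1 + 1) → ℤ) (fun h => ha (congrFun h 1)) H hH (fun j => by
    fin_cases j
    · exact h0
    · exact h1)
  rw [Fin.sum_univ_two] at h2
  have e1 : ((1 : ℕ) : ℝ) + η = 1 + η := by push_cast; ring
  rw [e1] at h2
  simpa using h2

open Pool.Agent.W47.JL in
theorem part1 (η : ℝ) (hη : 0 < η) : ∃ C : ℝ, 0 < C ∧ ∀ (t : ℝ) (g g' : ℕ), 2 ≤ g → 2 ≤ g' → ∀ (L L' : ℕ) (M : ℝ),
      1 ≤ M → ∀ b c b' c' : ℤ, |(b : ℝ)| ≤ M → |(c : ℝ)| ≤ M → |(b' : ℝ)| ≤ M → |(c' : ℝ)| ≤ M → b * c' ≠ b' * c →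
        min (L * Real.log g) (L' * Real.log g') ≤
          (2 + η) * (F C (complexity g (b * Real.exp 1 + c * t) L) * Real.log g +
            F C (complexity g' (b' * Real.exp 1 + c' * t) L') * Real.log g') + (3 + 2 * η) * Real.log M := by
  obtain ⟨c₀, hc₀, hm⟩ := meas η hη
  obtain ⟨K, hK⟩ : ∃ K : ℝ, K = (1 + η) * Real.log 8 + Real.log 2 + |Real.log c₀| := ⟨_, rfl⟩
  have hl8 : 0 < Real.log 8 := Real.log_pos (by norm_num)
  have hl2 : 0.69 < Real.log 2 := by have := Real.log_two_gt_d9; linarith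
  have hK0 : 0 ≤ K := by rw [hK]; positivity
  refine ⟨17 + K, by positivity, ?_⟩
  intro t g g' hg hg' L L' M hM b c b' c' hb hc hb' hc' hne
  have hgR : (2 : ℝ) ≤ g := by exact_mod_cast hg
  have hgR' : (2 : ℝ) ≤ g' := by exact_mod_cast hg'
  obtain ⟨u, hu⟩ : ∃ u : ℝ, u = Real.log g := ⟨_, rfl⟩
  obtain ⟨u', hu'⟩ : ∃ u' : ℝ, u' = Real.log g' := ⟨_, rfl⟩
  have hu2 : 0.69 ≤ u := by rw [hu]; exact hl2.le.trans (Real.log_le_log (by norm_num) hgR)
  have hu2' : 0.69 ≤ u' := by rw [hu']; exact hl2.le.trans (Real.log_le_log (by norm_num) hgR')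
  have hlM : 0 ≤ Real.log M := Real.log_nonneg hM
  obtain ⟨x, hx⟩ : ∃ x : ℝ, x = b * Real.exp 1 + c * t := ⟨_, rfl⟩
  obtain ⟨x', hx'⟩ : ∃ x' : ℝ, x' = b' * Real.exp 1 + c' * t := ⟨_, rfl⟩
  obtain ⟨q, hq, p, h1, h2⟩ := approx g hg x L
  obtain ⟨q', hq', p', h1', h2'⟩ := approx g' hg' x' L'
  rw [← hx, ← hx']
  obtain ⟨N, hN⟩ : ∃ N, N = complexity g x L := ⟨_, rfl⟩
  obtain ⟨N', hN'⟩ : ∃ N', N' = complexity g' x' L' := ⟨_, rfl⟩
  rw [← hN, ← hu] at h1 h2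
  rw [← hN', ← hu'] at h1' h2'
  rw [← hN, ← hu, ← hN', ← hu']
  have herr := err_ge N
  have herr' := err_ge N'
  obtain ⟨A, hA⟩ : ∃ A : ℝ, A = ((N : ℝ) + 15 * err N + 1) * u := ⟨_, rfl⟩
  obtain ⟨A', hA'⟩ : ∃ A' : ℝ, A' = ((N' : ℝ) + 15 * err N' + 1) * u' := ⟨_, rfl⟩
  rw [← hA] at h1 h2
  rw [← hA'] at h1' h2'
  have hA0 : 0 ≤ A := by rw [hA]; positivity
  have hA0' : 0 ≤ A' := by rw [hA']; positivity
  obtain ⟨Λ, hΛ⟩ : ∃ Λ : ℝ, Λ = min (L * u) (L' * u') := ⟨_, rfl⟩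
  have hΛ1 : Λ ≤ L * u := by rw [hΛ]; exact min_le_left _ _
  have hΛ2 : Λ ≤ L' * u' := by rw [hΛ]; exact min_le_right _ _
  rw [← hΛ]
  have hM0 : 0 < M := by linarith
  -- the reduction
  have key : Λ ≤ (2 + η) * (A + A') + (3 + 2 * η) * Real.log M + K := by
    obtain ⟨D, hD⟩ : ∃ D : ℤ, D = b * c' - b' * c := ⟨_, rfl⟩
    have hD0 : D ≠ 0 := by rw [hD]; exact sub_ne_zero.2 hne
    have hqR : (1 : ℝ) ≤ q := by exact_mod_cast hq
    have hqR' : (1 : ℝ) ≤ q' := by exact_mod_cast hq'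
    obtain ⟨a₁, ha₁⟩ : ∃ a₁ : ℤ, a₁ = q * q' * D := ⟨_, rfl⟩
    obtain ⟨a₀, ha₀⟩ : ∃ a₀ : ℤ, a₀ = c * q * p' - c' * q' * p := ⟨_, rfl⟩
    have ha₁0 : a₁ ≠ 0 := by
      rw [ha₁]
      refine mul_ne_zero (mul_ne_zero ?_ ?_) hD0
      · exact_mod_cast (by omega : q ≠ 0)
      · exact_mod_cast (by omega : q' ≠ 0)
    have ha₁1 : (1 : ℝ) ≤ |(a₁ : ℝ)| := by exact_mod_cast Int.one_le_abs ha₁0
    have e1 : (a₀ : ℝ) + a₁ * Real.exp 1 = c' * q' * (q * x - p) - c * q * (q' * x' - p') := by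
      rw [ha₀, ha₁, hD, hx, hx']
      push_cast
      ring
    have hD2 : |(D : ℝ)| ≤ 2 * M ^ 2 := by
      rw [hD]
      push_cast
      calc |(b : ℝ) * c' - b' * c| ≤ |(b : ℝ) * c'| + |(b' : ℝ) * c| := abs_sub _ _
        _ = |(b : ℝ)| * |(c' : ℝ)| + |(b' : ℝ)| * |(c : ℝ)| := by rw [abs_mul, abs_mul]
        _ ≤ M * M + M * M := by gcongr
        _ = _ := by ring
    have hexpS : Real.exp A * Real.exp A' = Real.exp (A + A') := (Real.exp_add _ _).symm
    have ha₁le : |(a₁ : ℝ)| ≤ 2 * M ^ 2 * Real.exp (A + A') := by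
      rw [ha₁]
      push_cast
      rw [abs_mul, abs_mul, Nat.abs_cast, Nat.abs_cast, ← hexpS]
      calc (q : ℝ) * q' * |(D : ℝ)| ≤ Real.exp A * Real.exp A' * (2 * M ^ 2) := by gcongr
        _ = _ := by ring
    have hsmall : |(a₀ : ℝ) + a₁ * Real.exp 1| ≤ 2 * M * Real.exp (A + A' - Λ) := by
      rw [e1]
      calc |(c' : ℝ) * q' * (q * x - p) - c * q * (q' * x' - p')|
          ≤ |(c' : ℝ) * q' * (q * x - p)| + |(c : ℝ) * q * (q' * x' - p')| := abs_sub _ _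
        _ = |(c' : ℝ)| * q' * |(q : ℝ) * x - p| + |(c : ℝ)| * q * |(q' : ℝ) * x' - p'| := by
            rw [abs_mul, abs_mul, abs_mul, abs_mul, Nat.abs_cast, Nat.abs_cast]
        _ ≤ M * Real.exp A' * Real.exp (A - L * u) + M * Real.exp A * Real.exp (A' - L' * u') := by gcongr
        _ ≤ M * Real.exp A' * Real.exp (A - Λ) + M * Real.exp A * Real.exp (A' - Λ) := by gcongr
        _ = 2 * M * Real.exp (A + A' - Λ) := by
            rw [mul_assoc, ← Real.exp_add, mul_assoc M, ← Real.exp_add]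
            have e2 : A' + (A - Λ) = A + A' - Λ := by ring
            have e3 : A + (A' - Λ) = A + A' - Λ := by ring
            rw [e2, e3]
            ring
    rcases le_or_gt 1 (2 * M * Real.exp (A + A' - Λ)) with hcase | hcase
    · have h3 := Real.log_le_log one_pos hcase
      rw [Real.log_one, Real.log_mul (by positivity) (Real.exp_pos _).ne', Real.log_exp,
        Real.log_mul (by norm_num) hM0.ne'] at h3
      have h4 : 0 ≤ η * (A + A') := by positivity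
      have h5 : 0 ≤ (2 + 2 * η) * Real.log M := by positivity
      have h6 : Real.log 2 ≤ K := by
        rw [hK]
        have : 0 ≤ (1 + η) * Real.log 8 + |Real.log c₀| := by positivity
        linarith
      have e2 : (2 + η) * (A + A') = 2 * (A + A') + η * (A + A') := by ring
      have e3 : (3 + 2 * η) * Real.log M = Real.log M + (2 + 2 * η) * Real.log M := by ring
      rw [e2, e3]
      linarith
    · have he3 : Real.exp 1 < 3 := by have := Real.exp_one_lt_d9; linarith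
      have ha₀le : |(a₀ : ℝ)| ≤ 8 * M ^ 2 * Real.exp (A + A') := by
        have e2 : (a₀ : ℝ) = ((a₀ : ℝ) + a₁ * Real.exp 1) - a₁ * Real.exp 1 := by ring
        rw [e2]
        refine (abs_sub _ _).trans ?_
        rw [abs_mul, abs_of_pos (Real.exp_pos 1)]
        have h3 : |(a₀ : ℝ) + a₁ * Real.exp 1| ≤ 1 := hsmall.trans hcase.le
        nlinarith
      have hH : (1 : ℝ) ≤ 8 * M ^ 2 * Real.exp (A + A') := by linarith
      have h3 := hm a₀ a₁ (8 * M ^ 2 * Real.exp (A + A')) ha₁0 hH ha₀le (by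
        have : 0 ≤ M ^ 2 * Real.exp (A + A') := by positivity
        linarith)
      have h4 : c₀ ≤ (8 * M ^ 2 * Real.exp (A + A')) ^ (1 + η) * (2 * M * Real.exp (A + A' - Λ)) :=
        h3.trans (by gcongr)
      have h5 := Real.log_le_log hc₀ h4
      rw [Real.log_mul (by positivity) (by positivity), Real.log_rpow (by positivity),
        Real.log_mul (by positivity) (Real.exp_pos _).ne', Real.log_exp,
        Real.log_mul (by norm_num) (by positivity), Real.log_pow,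
        Real.log_mul (by positivity) (Real.exp_pos _).ne', Real.log_exp,
        Real.log_mul (by norm_num) hM0.ne'] at h5
      have h6 := neg_abs_le (Real.log c₀)
      rw [hK]
      push_cast at h5
      have e2 : (1 + η) * (Real.log 8 + 2 * Real.log M + (A + A')) + (Real.log 2 + Real.log M + (A + A' - Λ)) =
          (2 + η) * (A + A') + (3 + 2 * η) * Real.log M + (1 + η) * Real.log 8 + Real.log 2 - Λ := by ring
      rw [e2] at h5
      linarith
  refine key.trans ?_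
  unfold F
  have e2 : Real.sqrt (((N : ℝ) + 1) * Real.log ((N : ℝ) + 2)) = err N := rfl
  have e3 : Real.sqrt (((N' : ℝ) + 1) * Real.log ((N' : ℝ) + 2)) = err N' := rfl
  rw [e2, e3, hA, hA']
  have h7 : (1 : ℝ) * u ≤ 2 * err N * u := by
    apply mul_le_mul_of_nonneg_right _ (by linarith)
    linarith
  have h8 : (1 : ℝ) * u' ≤ 2 * err N' * u' := by
    apply mul_le_mul_of_nonneg_right _ (by linarith)
    linarith
  have h9 : K ≤ (2 + η) * (K * err N * u) := by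
    have h10 : 0.5 ≤ err N * u := by nlinarith
    have h11 : K * 0.5 ≤ K * (err N * u) := mul_le_mul_of_nonneg_left h10 hK0
    have h12 : 0 ≤ η * (K * err N * u) := by positivity
    nlinarith
  have h10 : 0 ≤ K * err N' * u' := by positivity
  have h11 : (2 + η) * (((N : ℝ) + 15 * err N + 1) * u + ((N' : ℝ) + 15 * err N' + 1) * u' + K * err N * u) ≤
      (2 + η) * (((N : ℝ) + (17 + K) * err N) * u + ((N' : ℝ) + (17 + K) * err N') * u') := by
    refine mul_le_mul_of_nonneg_left ?_ (by linarith)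
    have e4 : ((N : ℝ) + (17 + K) * err N) * u = ((N : ℝ) + 15 * err N) * u + 2 * err N * u + K * err N * u := by
      ring
    have e5 : ((N' : ℝ) + (17 + K) * err N') * u' =
      ((N' : ℝ) + 15 * err N') * u' + 2 * err N' * u' + K * err N' * u' := by ring
    rw [e4, e5]
    linarith
  have e6 : (2 + η) * (((N : ℝ) + 15 * err N + 1) * u + ((N' : ℝ) + 15 * err N' + 1) * u' + K * err N * u) =
    (2 + η) * (((N : ℝ) + 15 * err N + 1) * u + ((N' : ℝ) + 15 * err N' + 1) * u') +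
      (2 + η) * (K * err N * u) := by ring
  rw [e6] at h11
  linarith

open Pool.Agent.W47.JL in
/-- the error term is small for all bases -/
theorem err_small (ρ Λ u : ℝ) (N : ℕ) (hρ : 0 < ρ) (hρ1 : ρ ≤ 1 / 2) (hΛ : 0 < Λ) (hu : 0 < u)
    (hu' : u ≤ ρ ^ 4 * Λ) (hN : (N : ℝ) * u ≤ Λ / 4) : err N * u ≤ 2 * ρ * Λ := by
  have hN0 : (0 : ℝ) ≤ N := Nat.cast_nonneg _
  have hρ4 : ρ ^ 4 ≤ 1 / 4 := by
    have h1 : ρ ^ 2 ≤ 1 / 4 := by nlinarith
    have h2 : 0 ≤ ρ ^ 2 := by positivity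
    nlinarith
  have hu1 : u ≤ Λ / 4 := by nlinarith
  have h1 : ((N : ℝ) + 1) * u ≤ Λ := by nlinarith
  have h2 : ((N : ℝ) + 2) * u ≤ Λ := by nlinarith
  have hl0 : 0 ≤ Real.log ((N : ℝ) + 2) := Real.log_nonneg (by linarith)
  have h3 : Real.log ((N : ℝ) + 2) ≤ 2 * Real.sqrt ((N : ℝ) + 2) := by
    have h4 : (0 : ℝ) < (N : ℝ) + 2 := by linarith
    have h5 : Real.log ((N : ℝ) + 2) = 2 * Real.log (Real.sqrt ((N : ℝ) + 2)) := by
      rw [Real.log_sqrt h4.le]; ring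
    have h6 := Real.log_le_sub_one_of_pos (Real.sqrt_pos.2 h4)
    rw [h5]
    linarith
  have h4 : (u * Real.log ((N : ℝ) + 2)) ^ 2 ≤ (2 * ρ ^ 2 * Λ) ^ 2 := by
    calc (u * Real.log ((N : ℝ) + 2)) ^ 2 = u ^ 2 * (Real.log ((N : ℝ) + 2)) ^ 2 := by ring
      _ ≤ u ^ 2 * (2 * Real.sqrt ((N : ℝ) + 2)) ^ 2 := by gcongr
      _ = 4 * u * (((N : ℝ) + 2) * u) := by
          rw [mul_pow, Real.sq_sqrt (by linarith)]
          ring
      _ ≤ 4 * (ρ ^ 4 * Λ) * Λ := by gcongr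
      _ = _ := by ring
  have h5 : u * Real.log ((N : ℝ) + 2) ≤ 2 * ρ ^ 2 * Λ := by
    have := abs_le_of_sq_le_sq' h4 (by positivity)
    exact this.2
  have h6 : (err N * u) ^ 2 ≤ (2 * ρ * Λ) ^ 2 := by
    have e1 : (err N) ^ 2 = ((N : ℝ) + 1) * Real.log ((N : ℝ) + 2) := by
      unfold err
      rw [Real.sq_sqrt (by positivity)]
    calc (err N * u) ^ 2 = (((N : ℝ) + 1) * u) * (u * Real.log ((N : ℝ) + 2)) := by
          rw [mul_pow, e1]; ring
      _ ≤ Λ * (2 * ρ ^ 2 * Λ) := by gcongr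
      _ ≤ (2 * ρ * Λ) ^ 2 := by nlinarith [sq_nonneg (ρ * Λ)]
  exact (abs_le_of_sq_le_sq' h6 (by positivity)).2

open Pool.Agent.W47.JL in
theorem part2 (ε : ℝ) (hε : 0 < ε) : ∃ δ Λ₀ : ℝ, 0 < δ ∧ ∀ t Λ : ℝ, Λ₀ ≤ Λ → ∀ b c b' c' : ℤ,
      |(b : ℝ)| ≤ Real.exp (δ * Λ) →
      |(c : ℝ)| ≤ Real.exp (δ * Λ) → |(b' : ℝ)| ≤ Real.exp (δ * Λ) → |(c' : ℝ)| ≤ Real.exp (δ * Λ) →
      b * c' ≠ b' * c → ∀ g g' : ℕ, 2 ≤ g → 2 ≤ g' → (g : ℝ) ≤ Real.exp (δ * Λ) → (g' : ℝ) ≤ Real.exp (δ * Λ) →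
        (1 / 4 - ε) * (Λ / Real.log g) ≤ complexity g (b * Real.exp 1 + c * t) ⌊Λ / Real.log g⌋₊ ∨
        (1 / 4 - ε) * (Λ / Real.log g') ≤ complexity g' (b' * Real.exp 1 + c' * t) ⌊Λ / Real.log g'⌋₊ := by
  obtain ⟨C, hC, h⟩ := part1 ε hε
  obtain ⟨ρ, hρE⟩ : ∃ ρ : ℝ, ρ = min (1 / 2) (min (ε / (9 * C)) (ε / 5)) := ⟨_, rfl⟩
  have hρ0 : 0 < ρ := by rw [hρE]; positivity
  have hρ1 : ρ ≤ 1 / 2 := by rw [hρE]; exact min_le_left _ _
  have hρ2 : ρ ≤ ε / (9 * C) := by rw [hρE]; exact (min_le_right _ _).trans (min_le_left _ _)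
  have hρ3 : ρ ≤ ε / 5 := by rw [hρE]; exact (min_le_right _ _).trans (min_le_right _ _)
  have hρ2' : 9 * C * ρ ≤ ε := by
    have := (le_div_iff₀ (by positivity)).1 hρ2
    linarith
  obtain ⟨δ, hδE⟩ : ∃ δ : ℝ, δ = ρ ^ 4 := ⟨_, rfl⟩
  have hδ0 : 0 < δ := by rw [hδE]; positivity
  have hδ1 : δ ≤ ρ := by
    rw [hδE]
    have h1 : ρ ^ 2 ≤ 1 / 4 := by nlinarith
    have h2 : 0 ≤ ρ ^ 2 := by positivity
    nlinarith [mul_nonneg h2 hρ0.le]
  refine ⟨δ, 1, hδ0, ?_⟩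
  intro t Λ hΛ b c b' c' hb hc hb' hc' hne g g' hg hg' hgL hgL'
  have hΛ0 : 0 < Λ := by linarith
  by_contra hcon
  push Not at hcon
  obtain ⟨hN, hN'⟩ := hcon
  have hgR : (2 : ℝ) ≤ g := by exact_mod_cast hg
  have hgR' : (2 : ℝ) ≤ g' := by exact_mod_cast hg'
  have hu0 : 0 < Real.log g := Real.log_pos (by linarith)
  have hu0' : 0 < Real.log g' := Real.log_pos (by linarith)
  have hu1 : Real.log g ≤ δ * Λ := by
    rw [← Real.log_exp (δ * Λ)]
    exact Real.log_le_log (by linarith) hgL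
  have hu1' : Real.log g' ≤ δ * Λ := by
    rw [← Real.log_exp (δ * Λ)]
    exact Real.log_le_log (by linarith) hgL'
  have h1 := h t g g' hg hg' ⌊Λ / Real.log g⌋₊ ⌊Λ / Real.log g'⌋₊ (Real.exp (δ * Λ))
    (Real.one_le_exp (by positivity)) b c b' c' hb hc hb' hc' hne
  rw [Real.log_exp] at h1
  obtain ⟨N, hNE⟩ : ∃ N, N = complexity g (b * Real.exp 1 + c * t) ⌊Λ / Real.log g⌋₊ := ⟨_, rfl⟩
  obtain ⟨N', hNE'⟩ : ∃ N', N' = complexity g' (b' * Real.exp 1 + c' * t) ⌊Λ / Real.log g'⌋₊ := ⟨_, rfl⟩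
  rw [← hNE] at hN h1
  rw [← hNE'] at hN' h1
  obtain ⟨u, hu⟩ : ∃ u : ℝ, u = Real.log g := ⟨_, rfl⟩
  obtain ⟨u', hu'⟩ : ∃ u' : ℝ, u' = Real.log g' := ⟨_, rfl⟩
  rw [← hu] at hN h1 hu0 hu1
  rw [← hu'] at hN' h1 hu0' hu1'
  have hNu : (N : ℝ) * u < (1 / 4 - ε) * Λ := by
    have := mul_lt_mul_of_pos_right hN hu0
    calc (N : ℝ) * u < (1 / 4 - ε) * (Λ / u) * u := this
      _ = _ := by field_simp
  have hNu' : (N' : ℝ) * u' < (1 / 4 - ε) * Λ := by
    have := mul_lt_mul_of_pos_right hN' hu0'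
    calc (N' : ℝ) * u' < (1 / 4 - ε) * (Λ / u') * u' := this
      _ = _ := by field_simp
  have hε4 : ε < 1 / 4 := by
    by_contra h2
    push Not at h2
    have h3 : 0 ≤ (N : ℝ) * u := by positivity
    have h4 : (1 / 4 - ε) * Λ ≤ 0 := mul_nonpos_of_nonpos_of_nonneg (by linarith) hΛ0.le
    linarith
  have hL1 : (1 - δ) * Λ ≤ ((⌊Λ / u⌋₊ : ℕ) : ℝ) * u := by
    have h2 := Nat.lt_floor_add_one (Λ / u)
    have h3 : Λ / u * u ≤ (((⌊Λ / u⌋₊ : ℕ) : ℝ) + 1) * u := mul_le_mul_of_nonneg_right h2.le hu0.le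
    rw [div_mul_cancel₀ _ hu0.ne'] at h3
    linarith
  have hL2 : (1 - δ) * Λ ≤ ((⌊Λ / u'⌋₊ : ℕ) : ℝ) * u' := by
    have h2 := Nat.lt_floor_add_one (Λ / u')
    have h3 : Λ / u' * u' ≤ (((⌊Λ / u'⌋₊ : ℕ) : ℝ) + 1) * u' := mul_le_mul_of_nonneg_right h2.le hu0'.le
    rw [div_mul_cancel₀ _ hu0'.ne'] at h3
    linarith
  have h2 := (le_min hL1 hL2).trans h1
  have e1 := err_small ρ Λ u N hρ0 hρ1 hΛ0 hu0 (by rw [← hδE]; exact hu1) (by nlinarith)
  have e2 := err_small ρ Λ u' N' hρ0 hρ1 hΛ0 hu0' (by rw [← hδE]; exact hu1') (by nlinarith)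
  have e3 : F C N * u ≤ (1 / 4 - ε) * Λ + C * (2 * ρ * Λ) := by
    have e4 : F C N * u = N * u + C * (err N * u) := by
      unfold F err
      ring
    rw [e4]
    have := mul_le_mul_of_nonneg_left e1 hC.le
    linarith
  have e3' : F C N' * u' ≤ (1 / 4 - ε) * Λ + C * (2 * ρ * Λ) := by
    have e4 : F C N' * u' = N' * u' + C * (err N' * u') := by
      unfold F err
      ring
    rw [e4]
    have := mul_le_mul_of_nonneg_left e2 hC.le
    linarith
  have h3 : (1 - δ) * Λ ≤ (2 + ε) * (2 * ((1 / 4 - ε) * Λ + C * (2 * ρ * Λ))) + (3 + 2 * ε) * (δ * Λ) := by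
    refine h2.trans ?_
    have h4 : (2 + ε) * (F C N * u + F C N' * u') ≤
        (2 + ε) * (2 * ((1 / 4 - ε) * Λ + C * (2 * ρ * Λ))) :=
      mul_le_mul_of_nonneg_left (by linarith) (by linarith)
    linarith
  have h4 : (1 - δ) * Λ ≤ ((2 + ε) * (2 * ((1 / 4 - ε) + C * (2 * ρ))) + (3 + 2 * ε) * δ) * Λ := by
    refine h3.trans (le_of_eq ?_)
    ring
  have h5 := le_of_mul_le_mul_right h4 hΛ0
  have h6 : C * ρ ≤ ε / 9 := by linarith
  have h7 : 0 ≤ C * ρ := by positivity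
  nlinarith

theorem result : (∀ η : ℝ, 0 < η → ∃ C : ℝ, 0 < C ∧ ∀ (t : ℝ) (g g' : ℕ), 2 ≤ g → 2 ≤ g' → ∀ (L L' : ℕ) (M : ℝ),
      1 ≤ M → ∀ b c b' c' : ℤ, |(b : ℝ)| ≤ M → |(c : ℝ)| ≤ M → |(b' : ℝ)| ≤ M → |(c' : ℝ)| ≤ M → b * c' ≠ b' * c →
        min (L * Real.log g) (L' * Real.log g') ≤
          (2 + η) * (F C (complexity g (b * Real.exp 1 + c * t) L) * Real.log g +
            F C (complexity g' (b' * Real.exp 1 + c' * t) L') * Real.log g') + (3 + 2 * η) * Real.log M) ∧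
    (∀ ε : ℝ, 0 < ε → ∃ δ Λ₀ : ℝ, 0 < δ ∧ ∀ t Λ : ℝ, Λ₀ ≤ Λ → ∀ b c b' c' : ℤ, |(b : ℝ)| ≤ Real.exp (δ * Λ) →
      |(c : ℝ)| ≤ Real.exp (δ * Λ) → |(b' : ℝ)| ≤ Real.exp (δ * Λ) → |(c' : ℝ)| ≤ Real.exp (δ * Λ) →
      b * c' ≠ b' * c → ∀ g g' : ℕ, 2 ≤ g → 2 ≤ g' → (g : ℝ) ≤ Real.exp (δ * Λ) → (g' : ℝ) ≤ Real.exp (δ * Λ) →
        (1 / 4 - ε) * (Λ / Real.log g) ≤ complexity g (b * Real.exp 1 + c * t) ⌊Λ / Real.log g⌋₊ ∨
        (1 / 4 - ε) * (Λ / Real.log g') ≤ complexity g' (b' * Real.exp 1 + c' * t) ⌊Λ / Real.log g'⌋₊) := by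
  exact ⟨part1, part2⟩

end Pool.Agent.Results.MP_58e087_nt.AllDirections
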