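import Pool.Agent.Q23.AQ.Mon
import Pool.Agent.Q23.AQ.Few
import Pool.Agent.Q23.DM.Lam
import Pool.Agent.H340R2.LW

/-!
# `1`, `e^(2 q)`, `B(q, q)` for almost all algebraic numbers `q`

Let `B(z, z) = ∫_0^1 (t (1 - t))^(z - 1) dt` be Euler's beta function on the diagonal. For `q = 1/2` the numbers `1`,
`e^(2 q)`, `B(q, q)` are `1`, `e`, `π`. For almost all elements `q` of number fields of bounded degree (in particular for
almost all rational numbers) in any compact subset of the half-plane `Re z > 0`, for instance in a disk with centre `1/2`,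
and for almost all `n`-tuples of them, inside any given finite set of such numbers, the numbers `1`, `e^(2 q)`, `B(q, q)`
are linearly independent over the number field, even algebraically independent as far as relations of bounded degree and
polynomially bounded height are concerned, with a measure of independence, and relative to arbitrary constants. More
generally this is proved for any multiplicatively independent monomials in the functions `Γ(z + x_1)`, …, `Γ(z + x_r)`,
`e^(l_1 z)`, …, `e^(l_u z)`, `x_i` different modulo `ℤ` and `l_j` independent over `ℤ` modulo `2 π i ℤ` (by the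
multiplication formula the functions `Γ(m z + x)`, `B(m z + x, k z + y)`, `m`, `k` positive integers, `x`, `y` rational, are
of this form up to factors in `ℚ(z)` and constants).
-/

set_option autoImplicit false

open Set Filter Topology NumberField

namespace Pool.Agent.Results.MP_58e087_nt.ExponentialsAndBetaValues

/-- The exceptional `n`-tuples of elements of the finite subset `X` of the number field `F ⊆ ℂ`: there is a polynomial `P`
of degree at most `d` in each variable, with coefficients of the form `∑ ξ_a ι(c_a)`, where the `c_a` are integers of `F`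
all of whose conjugates have absolute value at most `T ^ A`, such that the value of `P` at the numbers `f y (ι (q h))` is
at most `T ^ (-B)` times the absolute value of some nonzero coefficient of `P`. -/
def Exceptional {κ : Type} (f : κ → ℂ → ℂ) (n d : ℕ) {g : ℕ} (F : Type) [Field F] [NumberField F] (ι : F →+* ℂ)
    (ξ : Fin g → ℂ) (X : Finset F) (A B T : ℝ) : Set (Fin n → F) :=
  {q | (∀ h, q h ∈ X) ∧ ∃ P : MvPolynomial (Fin n × κ) ℂ, (∀ x, P.degreeOf x ≤ d) ∧
    (∀ s, ∃ c : Fin g → 𝓞 F, (∀ a (φ : F →+* ℂ), ‖φ (c a)‖ ≤ T ^ A) ∧ P.coeff s = ∑ a, ξ a * ι (c a)) ∧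
    ∃ s₀, P.coeff s₀ ≠ 0 ∧ ‖MvPolynomial.aeval (fun x : Fin n × κ => f x.2 (ι (q x.1))) P‖ ≤
      T ^ (-B) * ‖P.coeff s₀‖}

/-- For every compact subset `K` of `U` and all `m`, `n`, `g`, `d`, `A` and `ε > 0` there are `B`, `C`, `T₀` such that for
every number field `F` of degree at most `m`, every embedding `ι` of `F` in `ℂ`, all complex numbers `ξ_1, …, ξ_g`, all
`T ≥ T₀` and every finite set `X` of elements of `F` with images in `K` which are quotients of two integers of `F` all of
whose conjugates have absolute value at most `T`, the number of exceptional `n`-tuples of `X ^ n` is at most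
`C T^ε |X|^(n - 1)`. -/
def FewExceptions {κ : Type} (U : Set ℂ) (f : κ → ℂ → ℂ) : Prop :=
  ∀ (K : Set ℂ), IsCompact K → K ⊆ U → ∀ (m n g d : ℕ) (A ε : ℝ), 0 < ε →
    ∃ B C T₀ : ℝ, ∀ (F : Type) [Field F] [NumberField F], Module.finrank ℚ F ≤ m → ∀ (ι : F →+* ℂ) (ξ : Fin g → ℂ)
      (T : ℝ), T₀ ≤ T → ∀ X : Finset F,
        (∀ x ∈ X, ι x ∈ K ∧ ∃ a b : 𝓞 F, b ≠ 0 ∧ (∀ φ : F →+* ℂ, ‖φ a‖ ≤ T ∧ ‖φ b‖ ≤ T) ∧ x = a / b) →
        ((Exceptional f n d F ι ξ X A B T).ncard : ℝ) ≤ C * T ^ ε * (X.card : ℝ) ^ (n - 1)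

/-- The monomials `c_y ∏_i Γ(z + x_i)^(n_{y i}) ∏_j e^(l_j z n_{y j})`. -/
noncomputable def mono {v r u : ℕ} (x : Fin r → ℂ) (l : Fin u → ℂ) (n : Fin v → Fin r ⊕ Fin u → ℤ) (c : Fin v → ℂ)
    (y : Fin v) (z : ℂ) : ℂ :=
  c y * ((∏ i, Complex.Gamma (z + x i) ^ n y (Sum.inl i)) * ∏ j, Complex.exp (l j * z) ^ n y (Sum.inr j))

theorem exp_inj {u : ℕ} (l : Fin u → ℂ)
    (hl : ∀ (c : Fin u → ℤ) (k : ℤ), ∑ j, c j * l j = 2 * Real.pi * Complex.I * k → c = 0) (e e' : Fin u → ℕ)
    (h : Complex.exp (∑ j, e j * l j) = Complex.exp (∑ j, e' j * l j)) : e = e' := by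
  obtain ⟨k, hk⟩ := Complex.exp_eq_exp_iff_exists_int.1 h
  have h1 := hl (fun j => (e j : ℤ) - (e' j : ℤ)) k (by
    push_cast
    simp only [sub_mul, Finset.sum_sub_distrib]
    rw [hk]
    ring)
  funext j
  have h2 := congrFun h1 j
  simp only [Pi.zero_apply] at h2
  omega

theorem general {v r u : ℕ} (x : Fin r → ℂ) (hx : ∀ i j (k : ℤ), x i = x j + k → i = j) (l : Fin u → ℂ)
    (hl : ∀ (c : Fin u → ℤ) (k : ℤ), ∑ j, c j * l j = 2 * Real.pi * Complex.I * k → c = 0)
    (n : Fin v → Fin r ⊕ Fin u → ℤ) (hn : ∀ k : Fin v → ℤ, (∀ j, ∑ y, k y * n y j = 0) → k = 0) (c : Fin v → ℂ)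
    (hc : ∀ y, c y ≠ 0) : FewExceptions {z | ∀ i, 0 < (z + x i).re} (mono x l n c) := by
  classical
  intro K hK hKU m n' g d A ε hε
  have hbase : ∀ t ∈ {z : ℂ | ∀ i, 0 < (z + x i).re}, Y124.LocInd (Sum.elim (fun i z => Complex.Gamma (z + x i))
      (fun j z => Complex.exp (l j * z))) t := by
    intro t ht
    have h1 := Q23.DM.fun3_loc (q := 1) (s := 0) (fun _ : Fin 1 => (1 : ℂ)) (fun _ _ _ => Subsingleton.elim _ _) x hx l
      (exp_inj l hl) t ht
    have h2 := Q23.AQ.locInd_comp (Sum.inr : Fin r ⊕ Fin u → _) Sum.inr_injective _ _ h1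
    have h3 : (fun y : Fin r ⊕ Fin u => Q23.DM.fun3 (s := 0) (fun _ : Fin 1 => (1 : ℂ)) x l (Sum.inr y)) =
        Sum.elim (fun i z => Complex.Gamma (z + x i)) (fun j z => Complex.exp (l j * z)) := by
      funext y
      rcases y with i | j <;> rfl
    rwa [h3] at h2
  have hG : ∀ i, ∀ t ∈ {z : ℂ | ∀ i, 0 < (z + x i).re}, AnalyticAt ℂ (fun z => Complex.Gamma (z + x i)) t ∧
      Complex.Gamma (t + x i) ≠ 0 := by
    intro i t ht
    refine ⟨?_, Complex.Gamma_ne_zero_of_re_pos (ht i)⟩
    have h1 : AnalyticAt ℂ (fun z : ℂ => z + x i) t := analyticAt_id.add analyticAt_const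
    refine AnalyticAt.comp (g := Complex.Gamma) (f := fun z : ℂ => z + x i) ?_ h1
    refine Y771.RP.Gamma_analyticAt fun k hk => ?_
    have h2 := ht i
    rw [hk] at h2
    simp at h2
    have : (0 : ℝ) ≤ k := Nat.cast_nonneg k
    linarith
  have hloc : ∀ t ∈ K, Y124.LocInd (mono x l n c) t := by
    intro t ht
    have h1 := Q23.AQ.locInd_mon _ t (fun j => ?_) n hn (hbase t (hKU ht))
    · refine Q23.AQ.locInd_smul c hc _ _ t (fun y z => ?_) h1
      simp only [mono, Fintype.prod_sum_type, Sum.elim_inl, Sum.elim_inr]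
    · rcases j with i | j
      · exact (hG i t (hKU ht)).1.continuousAt.eventually_ne (hG i t (hKU ht)).2
      · exact Eventually.of_forall fun z => Complex.exp_ne_zero _
  refine Q23.AQ.fewC _ K hK ?_ hloc m n' g d A ε hε
  intro y t ht
  have h2 : AnalyticAt ℂ (fun z => c y * ((∏ i, Complex.Gamma (z + x i) ^ n y (Sum.inl i)) *
      ∏ j, Complex.exp (l j * z) ^ n y (Sum.inr j))) t := by
    refine analyticAt_const.mul (AnalyticAt.mul ?_ ?_)
    · exact Finset.analyticAt_fun_prod _ fun i _ => (hG i t (hKU ht)).1.zpow (hG i t (hKU ht)).2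
    · exact Finset.analyticAt_fun_prod _ fun j _ =>
        ((analyticAt_const.mul analyticAt_id).cexp).zpow (Complex.exp_ne_zero _)
  exact h2

theorem few_congr {κ : Type} {U : Set ℂ} {f g : κ → ℂ → ℂ} (h : ∀ k, ∀ z ∈ U, f k z = g k z)
    (hf : FewExceptions U f) : FewExceptions U g := by
  intro K hK hKU m n u d A ε hε
  obtain ⟨B, C, T₀, hB⟩ := hf K hK hKU m n u d A ε hε
  refine ⟨B, C, T₀, fun F _ _ hF ι ξ T hT X hX => ?_⟩
  have hE : Exceptional g n d F ι ξ X A B T = Exceptional f n d F ι ξ X A B T := by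
    ext q
    simp only [Exceptional, mem_ofPred_eq]
    refine and_congr_right fun hq => ?_
    have hv : (fun x : Fin n × κ => g x.2 (ι (q x.1))) = fun x => f x.2 (ι (q x.1)) := by
      funext x
      exact (h _ _ (hKU (hX _ (hq x.1)).1)).symm
    rw [hv]
  rw [hE]
  exact hB F hF ι ξ T hT X hX

theorem two_e (c : Fin 2 → ℤ) (k : ℤ)
    (h : ∑ j, c j * (![(Real.log 2 : ℂ), 2] : Fin 2 → ℂ) j = 2 * Real.pi * Complex.I * k) : c = 0 := by
  rw [Fin.sum_univ_two] at h
  simp only [Matrix.cons_val_zero, Matrix.cons_val_one] at h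
  have h1 := congrArg Complex.re h
  simp at h1
  have h1' : (c 0 : ℝ) * Real.log 2 + (c 1 : ℝ) * 2 = 0 := by
    rw [← h1]
    simp [Complex.log_re]
  have hl2 : Real.log 2 ≠ 0 := (Real.log_pos one_lt_two).ne'
  have hc1 : c 1 = 0 := by
    by_contra hc
    have h2 : (2 : ℝ) ^ (-c 0) = Real.exp 1 ^ (2 * c 1) := by
      have h3 : (2 : ℝ) ^ (-c 0) = Real.exp (Real.log 2 * ((-c 0 : ℤ) : ℝ)) := by
        rw [Real.exp_mul, Real.exp_log (by norm_num), Real.rpow_intCast]
      have h4 : Real.exp 1 ^ (2 * c 1) = Real.exp (1 * ((2 * c 1 : ℤ) : ℝ)) := by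
        rw [Real.exp_mul, Real.rpow_intCast]
      rw [h3, h4]
      congr 1
      push_cast
      linarith
    have htr : Transcendental ℚ (Real.exp 1) := H340R2.LW.transcendental_exp_one
    have h3 : Transcendental ℚ (Real.exp 1 ^ (2 * (c 1).natAbs)) := htr.pow (by omega)
    have h4 : IsAlgebraic ℚ (Real.exp 1 ^ (2 * c 1)) := by
      rw [← h2]
      have : (2 : ℝ) ^ (-c 0) = algebraMap ℚ ℝ (2 ^ (-c 0)) := by
        rw [map_zpow₀]
        simp
      rw [this]
      exact isAlgebraic_algebraMap _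
    rcases Int.natAbs_eq (c 1) with h5 | h5
    · apply h3
      rw [h5] at h4
      have h6 : Real.exp 1 ^ (2 * ((c 1).natAbs : ℤ)) = Real.exp 1 ^ (2 * (c 1).natAbs) := by
        rw [← zpow_natCast]
        push_cast
        rfl
      rwa [h6] at h4
    · apply h3
      rw [h5] at h4
      have h6 : Real.exp 1 ^ (2 * -((c 1).natAbs : ℤ)) = (Real.exp 1 ^ (2 * (c 1).natAbs))⁻¹ := by
        rw [← zpow_natCast, ← zpow_neg]
        push_cast
        congr 1
        ring
      rw [h6] at h4
      simpa using h4.inv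
  have hc0 : c 0 = 0 := by
    rw [hc1, Int.cast_zero, zero_mul, add_zero] at h1'
    exact_mod_cast (mul_eq_zero.1 h1').resolve_right hl2
  funext i
  fin_cases i <;> assumption

/-- Two assertions: the general one, and the one for `e^(2 z)` and `B(z, z)`. -/
theorem result :
    (∀ (v r u : ℕ) (x : Fin r → ℂ), (∀ i j (k : ℤ), x i = x j + k → i = j) → ∀ l : Fin u → ℂ,
      (∀ (c : Fin u → ℤ) (k : ℤ), ∑ j, c j * l j = 2 * Real.pi * Complex.I * k → c = 0) →
      ∀ n : Fin v → Fin r ⊕ Fin u → ℤ, (∀ k : Fin v → ℤ, (∀ j, ∑ y, k y * n y j = 0) → k = 0) →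
      ∀ c : Fin v → ℂ, (∀ y, c y ≠ 0) → FewExceptions {z | ∀ i, 0 < (z + x i).re} (mono x l n c)) ∧
    FewExceptions {z | 0 < z.re} ![fun z => Complex.exp (2 * z), fun z => Complex.betaIntegral z z] := by
  refine ⟨fun v r u x hx l hl n hn c hc => general x hx l hl n hn c hc, ?_⟩
  have hpi : (Real.sqrt Real.pi : ℂ) ≠ 0 := by
    exact_mod_cast (Real.sqrt_pos.2 Real.pi_pos).ne'
  have h := general (v := 2) ![0, 1 / 2] (by
    intro i j k hij
    by_contra hne
    have h2 : ∃ s : ℤ, (1 / 2 : ℂ) = s := by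
      fin_cases i <;> fin_cases j
      · exact absurd rfl hne
      · refine ⟨-k, ?_⟩
        simp at hij
        push_cast
        linear_combination -hij
      · refine ⟨k, ?_⟩
        simp at hij
        rw [← hij]
        norm_num
      · exact absurd rfl hne
    obtain ⟨s, hs⟩ := h2
    have h3 : (1 : ℂ) = ((2 * s : ℤ) : ℂ) := by
      push_cast
      rw [← hs]
      norm_num
    have h4 : (1 : ℤ) = 2 * s := by exact_mod_cast h3
    omega) ![(Real.log 2 : ℂ), 2] two_e
    (fun y => ![Sum.elim ![0, 0] ![0, 1], Sum.elim ![1, -1] ![-2, 0]] y) (by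
      intro k hk
      have h0 := hk (Sum.inl 0)
      have h1 := hk (Sum.inr 1)
      rw [Fin.sum_univ_two] at h0 h1
      simp at h0 h1
      funext i
      fin_cases i
      · exact h1
      · exact h0) ![1, 2 * (Real.sqrt Real.pi : ℂ)] (by
      intro y
      fin_cases y
      · exact one_ne_zero
      · exact mul_ne_zero two_ne_zero hpi)
  have hU : {z : ℂ | ∀ i, 0 < (z + (![0, 1 / 2] : Fin 2 → ℂ) i).re} = {z | 0 < z.re} := by
    ext z
    simp only [mem_ofPred_eq]
    constructor
    · intro h1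
      simpa using h1 0
    · intro h1 i
      fin_cases i
      · simpa using h1
      · simp
        linarith
  rw [hU] at h
  refine few_congr ?_ h
  intro y z hz
  have hz' : 0 < z.re := hz
  fin_cases y
  · simp [mono]
  · have h1 := Complex.Gamma_mul_Gamma_eq_betaIntegral hz' hz'
    have h2 := Complex.Gamma_mul_Gamma_add_half z
    have h3 : Complex.Gamma z ≠ 0 := Complex.Gamma_ne_zero_of_re_pos hz'
    have h4 : Complex.Gamma (z + 1 / 2) ≠ 0 := Complex.Gamma_ne_zero_of_re_pos (by simp; linarith)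
    have h5 : Complex.Gamma (2 * z) ≠ 0 := Complex.Gamma_ne_zero_of_re_pos (by simp; linarith)
    set E := Complex.exp (Real.log 2 * z) with hE
    have hE0 : E ≠ 0 := Complex.exp_ne_zero _
    have h6 : (2 : ℂ) ^ (1 - 2 * z) = 2 / E ^ 2 := by
      rw [Complex.cpow_sub _ _ two_ne_zero, Complex.cpow_one, hE, ← Complex.exp_nat_mul,
        Complex.cpow_def_of_ne_zero two_ne_zero]
      have h8 : ((Real.log 2 : ℝ) : ℂ) = Complex.log 2 := by
        rw [Complex.ofReal_log (by norm_num)]
        norm_num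
      rw [h8]
      congr 2
      push_cast
      ring
    have h7 : Complex.Gamma (2 * z) = Complex.Gamma z * Complex.Gamma (z + 1 / 2) * E ^ 2 /
        (2 * (Real.sqrt Real.pi : ℂ)) := by
      rw [h2, h6]
      field_simp
    have h8 : Complex.betaIntegral z z = Complex.Gamma z * Complex.Gamma z / Complex.Gamma (2 * z) := by
      rw [h1, ← two_mul]
      field_simp
    have h9 : mono ![0, 1 / 2] ![(Real.log 2 : ℂ), 2]
        (fun y => ![Sum.elim ![0, 0] ![0, 1], Sum.elim ![1, -1] ![-2, 0]] y) ![1, 2 * (Real.sqrt Real.pi : ℂ)] 1 z =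
        2 * (Real.sqrt Real.pi : ℂ) * (Complex.Gamma z * (Complex.Gamma (z + 1 / 2))⁻¹ * (E ^ 2)⁻¹) := by
      simp only [mono, Fin.prod_univ_two, Sum.elim_inl, Sum.elim_inr, Matrix.cons_val_zero, Matrix.cons_val_one]
      rw [add_zero, zpow_one, zpow_neg, zpow_one, zpow_zero, mul_one, ← hE]
      rfl
    show mono _ _ _ _ 1 z = Complex.betaIntegral z z
    rw [h9, h8, h7]
    field_simp

end Pool.Agent.Results.MP_58e087_nt.ExponentialsAndBetaValues
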