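import Mathlib
import Pool.Agent.Q29.EqSub
import Pool.Agent.TH647.NR.Rank
import Pool.Agent.W472.AC.EMeas2

/-!
# Joint uniform distribution of the multiples of linear combinations of `e, …, e ^ n` and `π`

Let `t_1, …, t_r` be arbitrary real numbers, for instance `r = 1`, `t_1 = π`, or the monomials `e ^ i π ^ j`. The numbers
`h(e, …, e ^ n, t_1, …, t_r)`, `h` an integer linear form in `n + r` variables, are rational only for the forms in a subspace
`W₀` of dimension at most `r`, and by the theorem of Kronecker and Weyl the multiples of the values of the forms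
`h_1, …, h_s` are jointly uniformly distributed modulo one if and only if no nonzero integer combination of
`h_1, …, h_s` lies in `W₀`. We prove a quantitative form at each scale, with a power saving and uniformly in the numbers
`t_j`: for all `n`, `r`, `s`, `K` and `A ≥ 1` there are `κ > 0` and `N₀` such that for all `N ≥ N₀` and all real
`t_1, …, t_r` there is a subspace `W` of `ℚ ^ n × ℚ ^ r` of dimension at most `r` such that for all integer forms
`h_1, …, h_s` of height at most `N ^ κ` without a nonzero integer combination in `W` and for all `M` from `N` to `N ^ A`, the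
multiples of the vector `(h_1(e, …, t_r), …, h_s(e, …, t_r))` by the integers up to `M`, by their `k`-th powers for `k ≤ K`
(even with real polynomials of degree less than `k` added), and by the primes up to `M` in each residue class modulo
`d ≤ M ^ κ` are uniformly distributed in the cubes of side `1 / q`, `q ≤ M ^ κ`, with an error `M ^ (1 - κ)`.

For `n = r = 1`, `t_1 = π`: at each scale, with the exception of the multiples of one vector `(b, c)`, the multiples of
all numbers `b e + c π` of height at most `N ^ κ` are uniformly distributed. If `1`, `e`, `π` are linearly dependent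
over the rational numbers, the exceptional vector is the one with `b e + c π` rational.

The proof uses the measure of linear independence of the powers of `e`, elimination (`Pool/Agent/TH647/NR/`), an inverse
theorem for the sums of Weyl and a form of the estimate of Vinogradov for the sums over primes with a power saving from
the starting files (`H373R2/NB`, `W110/HV`).
-/

set_option autoImplicit false

namespace Pool.Agent.Results.MP_58e087_nt.JointDistribution

open Finset Polynomial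

/-- The points `y n ∈ ℝ ^ s`, `n ∈ S`, are uniformly distributed modulo one with error `E` in the cubes of side `1 / q`,
`q ≤ Q`. -/
def Equi {s : ℕ} (S : Finset ℕ) (y : ℕ → Fin s → ℝ) (Q E : ℝ) : Prop :=
  ∀ q : ℕ, 1 ≤ q → (q : ℝ) ≤ Q → ∀ ρ : Fin s → ℤ, (∀ j, 0 ≤ ρ j ∧ ρ j < q) →
    |((S.filter fun n => ∀ j, (ρ j : ℝ) / q ≤ Int.fract (y n j) ∧ Int.fract (y n j) < (ρ j + 1) / q).card : ℝ) -
      S.card / (q : ℝ) ^ s| ≤ E

/-- The multiples of the vector `x` are uniformly distributed modulo one at the scale `M`, with a power saving, along all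
polynomials of degree `k ≤ K` (the points `x n ^ k + R(n)`, `0 ≤ n < M`, `R` a vector of real polynomials of degree less
than `k`), and along the primes in all residue classes modulo `d ≤ M ^ κ` (the points `x p + β`, `p ≤ M` prime,
`p ≡ r (mod d)`). -/
def Joint (κ : ℝ) (K M : ℕ) {s : ℕ} (x : Fin s → ℝ) : Prop :=
  (∀ k : ℕ, 1 ≤ k → k ≤ K → ∀ R : Fin s → ℝ[X], (∀ j, (R j).degree < k) →
    Equi (range M) (fun n j => x j * (n : ℝ) ^ k + (R j).eval (n : ℝ)) ((M : ℝ) ^ κ) ((M : ℝ) ^ (1 - κ))) ∧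
  (∀ d r : ℕ, 1 ≤ d → (d : ℝ) ≤ (M : ℝ) ^ κ → ∀ β : Fin s → ℝ,
    Equi ((range (M + 1)).filter fun p => p.Prime ∧ p ≡ r [MOD d]) (fun p j => x j * p + β j) ((M : ℝ) ^ κ)
      ((M : ℝ) ^ (1 - κ)))

/-- the value of the linear form with the coefficients `a`, `b` at `e, …, e ^ n, t_1, …, t_r` -/
noncomputable def value {n r : ℕ} (t : Fin r → ℝ) (a : Fin n → ℤ) (b : Fin r → ℤ) : ℝ :=
  ∑ j, (a j : ℝ) * Real.exp 1 ^ ((j : ℕ) + 1) + ∑ j, (b j : ℝ) * t j

theorem joint_iff (κ : ℝ) (K M : ℕ) {s : ℕ} (x : Fin s → ℝ) : Joint κ K M x ↔ Pool.Agent.Q29.Eqd.Joint κ K M x :=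
  Iff.rfl

theorem exp_pow (i : ℕ) : Real.exp (((i : ℕ) : ℤ) : ℝ) = Real.exp 1 ^ i := by
  rw [← Real.exp_nat_mul]
  simp

theorem form_eq {n r : ℕ} (t : Fin r → ℝ) (v : (Fin (n + 1) → ℤ) × (Fin r → ℤ)) :
    Pool.Agent.TH647.NR.linr (fun i : Fin (n + 1) => Real.exp (((i : ℕ) : ℤ) : ℝ)) t v =
      Pool.Agent.Q29.Eqd.lval (fun j : Fin n => Real.exp 1 ^ ((j : ℕ) + 1)) t v := by
  unfold Pool.Agent.TH647.NR.linr Pool.Agent.Q29.Eqd.lval
  simp only [exp_pow]
  rw [Fin.sum_univ_succ]
  simp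

theorem meas (n : ℕ) (η : ℝ) (hη : 0 < η) : ∃ c : ℝ, 0 < c ∧
    Pool.Agent.W472.AC.Meas (fun i : Fin (n + 1) => Real.exp (((i : ℕ) : ℤ) : ℝ)) (n + η) c :=
  Pool.Agent.W472.AC.e_meas n (fun i => ((i : ℕ) : ℤ)) (fun i j hij => by
    apply Fin.ext
    simpa using hij) (by simp) (fun i => by positivity) η hη

theorem result (n r s K : ℕ) (A : ℝ) (hs : 1 ≤ s) (hA : 1 ≤ A) :
    ∃ κ : ℝ, 0 < κ ∧ ∃ N₀ : ℕ, ∀ N : ℕ, N₀ ≤ N → ∀ t : Fin r → ℝ,
      ∃ W : Submodule ℚ ((Fin n → ℚ) × (Fin r → ℚ)), Module.finrank ℚ W ≤ r ∧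
        ∀ (a : Fin s → Fin n → ℤ) (b : Fin s → Fin r → ℤ),
          (∀ i j, |(a i j : ℝ)| ≤ (N : ℝ) ^ κ) → (∀ i j, |(b i j : ℝ)| ≤ (N : ℝ) ^ κ) →
          (∀ l : Fin s → ℤ, l ≠ 0 →
            ((fun j => ((∑ i, l i * a i j : ℤ) : ℚ), fun j => ((∑ i, l i * b i j : ℤ) : ℚ)) :
              (Fin n → ℚ) × (Fin r → ℚ)) ∉ W) →
          ∀ M : ℕ, N ≤ M → (M : ℝ) ≤ (N : ℝ) ^ A → Joint κ K M (fun i => value t (a i) (b i)) := by
  obtain ⟨κ, hκ, h⟩ := Pool.Agent.Q29.Eqd.joint_struct (((n : ℝ) + 1) * (r + 1) + r) A (by positivity) hA s hs K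
  obtain ⟨c, hc, hm⟩ := meas n 1 one_pos
  obtain ⟨c', hc', h'⟩ := Pool.Agent.TH647.NR.rank_bound _ ((n : ℝ) + 1) c hc hm r
  obtain ⟨N₀, hN₀⟩ := h (r := r) (fun j : Fin n => Real.exp 1 ^ ((j : ℕ) + 1)) c' hc' (by
    intro t X hX v hv hvX
    obtain ⟨k, hk⟩ := h' t X hX v hv hvX
    refine ⟨k, ?_⟩
    rw [form_eq] at hk
    refine le_trans (le_of_eq ?_) hk
    congr 2
    ring)
  refine ⟨κ, hκ, N₀, fun N hN t => ?_⟩
  obtain ⟨W, hW, hW2⟩ := hN₀ N hN t
  refine ⟨W, hW, fun a b ha hb hl M hNM hMA => ?_⟩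
  rw [joint_iff]
  exact hW2 a b ha hb (fun l hl0 => by
    have := hl l hl0
    unfold Pool.Agent.Q29.Eqd.castv
    exact this) M hNM hMA

end Pool.Agent.Results.MP_58e087_nt.JointDistribution
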