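import Mathlib
import Pool.Agent.TH647.NR.Lin
import Pool.Agent.TH647.NR.Rank

/-!
# Near relations between `1`, `e` and `π`

For every real number `t`, for instance `t = π`:

(1) Two integer vectors `v = (a, b, c)` of norm at most `X` with `|a + b e + c t| < C X ^ (-3 - η)` are
proportional; here `η > 0` is arbitrary and `C > 0` depends only on `η`.

(2) The primitive integer vectors `v` with `|a + b e + c t| ≤ ‖v‖ ^ (-w)`, `w > 3`, are sparse: at most
`log log X / log ρ + O(1)` of them have norm at most `X`, for every `ρ < (w - 1) / 2`. In particular, if there is a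
relation `a + b e + c π = 0`, then `|a' + b' e + c' π| ≥ C ‖v'‖ ^ (-3 - η)` for all integer vectors which are not
multiples of `(a, b, c)`, for norms larger than that of `(a, b, c)`.

(3) The same for `1, e, …, e ^ n` and arbitrary real numbers `t_1, …, t_r` (for instance the monomials
`e ^ i π ^ j`, `0 ≤ i ≤ n`, `1 ≤ j ≤ m`, with `r = (n + 1) m`): of `r + 1` linearly independent integer vectors of norm
at most `X` one has a value at least `C X ^ (-(n + η) (r + 1) - r)`, with `C` independent of `t_1, …, t_r`. In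
particular the polynomials `P` with integer coefficients of absolute value at most `X` and with degree at most `n`, `m` in the
two variables such that `|P(e, π)|` is smaller than this span a space of dimension at most `(n + 1) m`.

The proof is an elimination argument (`Pool/Agent/TH647/NR/`) with the measure of linear independence of
`1, e, …, e ^ n` with the optimal exponent (`Pool/Agent/W472/AC/EMeas2.lean`).
-/

set_option autoImplicit false

namespace Pool.Agent.Results.MP_58e087_nt.NearRelations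

open Polynomial

/-- the value of the form `a_0 + a_1 e + … + a_n e ^ n + b_1 t_1 + … + b_r t_r` -/
noncomputable def form {n r : ℕ} (t : Fin r → ℝ) (v : (Fin (n + 1) → ℤ) × (Fin r → ℤ)) : ℝ :=
  ∑ i, (v.1 i : ℝ) * Real.exp 1 ^ (i : ℕ) + ∑ j, (v.2 j : ℝ) * t j

/-- `a + b e + c t` for `v = (a, b, c)` -/
noncomputable def lin (t : ℝ) (v : Fin 3 → ℤ) : ℝ := v 0 + v 1 * Real.exp 1 + v 2 * t

/-- the primitive integer vectors `(a, b, c)` with `c > 0` and `|a + b e + c t| ≤ ‖(a, b, c)‖ ^ (-w)` -/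
def Near (t w : ℝ) : Set (Fin 3 → ℤ) :=
  {v | 0 < v 2 ∧ (∀ d : ℤ, (∀ i, d ∣ v i) → IsUnit d) ∧ |lin t v| ≤ ‖v‖ ^ (-w)}

/-- the value `P(e, t)` of a polynomial in two variables (the inner variable is `e`) -/
noncomputable def val (t : ℝ) (P : ℤ[X][X]) : ℝ := (P.map (aeval (Real.exp 1) : ℤ[X] →ₐ[ℤ] ℝ).toRingHom).eval t

theorem exp_pow (i : ℕ) : Real.exp (((i : ℕ) : ℤ) : ℝ) = Real.exp 1 ^ i := by
  rw [← Real.exp_nat_mul]
  simp

theorem form_eq {n r : ℕ} (t : Fin r → ℝ) (v : (Fin (n + 1) → ℤ) × (Fin r → ℤ)) :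
    Pool.Agent.TH647.NR.linr (fun i : Fin (n + 1) => Real.exp (((i : ℕ) : ℤ) : ℝ)) t v = form t v := by
  unfold Pool.Agent.TH647.NR.linr form
  simp only [exp_pow]

theorem meas (n : ℕ) (η : ℝ) (hη : 0 < η) : ∃ c : ℝ, 0 < c ∧
    Pool.Agent.W472.AC.Meas (fun i : Fin (n + 1) => Real.exp (((i : ℕ) : ℤ) : ℝ)) (n + η) c :=
  Pool.Agent.W472.AC.e_meas n (fun i => ((i : ℕ) : ℤ)) (fun i j hij => by
    apply Fin.ext
    simpa using hij) (by simp) (fun i => by positivity) η hη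

theorem part3 (n r : ℕ) (η : ℝ) (hη : 0 < η) : ∃ C : ℝ, 0 < C ∧ ∀ (t : Fin r → ℝ) (X : ℝ), 1 ≤ X →
      ∀ v : Fin (r + 1) → (Fin (n + 1) → ℤ) × (Fin r → ℤ), LinearIndependent ℤ v → (∀ k, ‖v k‖ ≤ X) →
        ∃ k, C * X ^ (-((n + η) * (r + 1) + r)) ≤ |form t (v k)| := by
  obtain ⟨c, hc, h⟩ := meas n η hη
  obtain ⟨c', hc', h'⟩ := Pool.Agent.TH647.NR.rank_bound _ (n + η) c hc h r
  refine ⟨c', hc', fun t X hX v hv hvX => ?_⟩
  obtain ⟨k, hk⟩ := h' t X hX v hv hvX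
  refine ⟨k, ?_⟩
  rw [form_eq] at hk
  refine le_trans (le_of_eq ?_) hk
  congr 2
  ring

/-- the linear map `(a, b, c) ↦ ((a, b), c)` -/
def emb : (Fin 3 → ℤ) →ₗ[ℤ] (Fin 2 → ℤ) × (Fin 1 → ℤ) where
  toFun v := (![v 0, v 1], ![v 2])
  map_add' v w := by
    refine Prod.ext ?_ ?_
    · funext i; fin_cases i <;> simp
    · funext i; fin_cases i; simp
  map_smul' k v := by
    refine Prod.ext ?_ ?_
    · funext i; fin_cases i <;> simp
    · funext i; fin_cases i; simp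

theorem emb_ker : LinearMap.ker emb = ⊥ := by
  rw [LinearMap.ker_eq_bot']
  intro v hv
  have h0 := congrFun (congrArg Prod.fst hv) 0
  have h1 := congrFun (congrArg Prod.fst hv) 1
  have h2 := congrFun (congrArg Prod.snd hv) 0
  simp [emb] at h0 h1 h2
  funext i
  fin_cases i <;> simp [h0, h1, h2]

theorem norm_emb (v : Fin 3 → ℤ) : ‖emb v‖ ≤ ‖v‖ := by
  rw [Prod.norm_def, max_le_iff]
  refine ⟨(pi_norm_le_iff_of_nonneg (norm_nonneg v)).2 fun i => ?_,
    (pi_norm_le_iff_of_nonneg (norm_nonneg v)).2 fun i => ?_⟩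
  · fin_cases i
    · exact norm_le_pi_norm v 0
    · exact norm_le_pi_norm v 1
  · fin_cases i
    exact norm_le_pi_norm v 2

theorem form_emb (t : ℝ) (v : Fin 3 → ℤ) : form (fun _ : Fin 1 => t) (emb v) = lin t v := by
  unfold form lin emb
  simp [Fin.sum_univ_two]

theorem part1 (η : ℝ) (hη : 0 < η) : ∃ C : ℝ, 0 < C ∧ ∀ (t X : ℝ), 1 ≤ X → ∀ v v' : Fin 3 → ℤ,
      ‖v‖ ≤ X → ‖v'‖ ≤ X → LinearIndependent ℤ ![v, v'] →
      C * X ^ (-(3 + η)) ≤ max |lin t v| |lin t v'| := by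
  obtain ⟨C, hC, h⟩ := part3 1 1 (η / 2) (by positivity)
  refine ⟨C, hC, fun t X hX v v' hv hv' hind => ?_⟩
  have h1 : LinearIndependent ℤ (fun k => emb (![v, v'] k)) := hind.map' emb emb_ker
  obtain ⟨k, hk⟩ := h (fun _ => t) X hX (fun k => emb (![v, v'] k)) h1 (fun k => by
    fin_cases k
    · exact (norm_emb v).trans hv
    · exact (norm_emb v').trans hv')
  have e1 : -((((1 : ℕ) : ℝ) + η / 2) * (((1 : ℕ) : ℝ) + 1) + ((1 : ℕ) : ℝ)) = -(3 + η) := by
    push_cast; ring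
  rw [e1] at hk
  refine hk.trans ?_
  fin_cases k
  · exact (le_of_eq (congrArg abs (form_emb t v))).trans (le_max_left _ _)
  · exact (le_of_eq (congrArg abs (form_emb t v'))).trans (le_max_right _ _)

theorem norm_vec (v : Fin 3 → ℤ) : ‖((![v 0, v 1], v 2) : (Fin (1 + 1) → ℤ) × ℤ)‖ = ‖v‖ := by
  apply le_antisymm
  · rw [Prod.norm_def, max_le_iff]
    refine ⟨(pi_norm_le_iff_of_nonneg (norm_nonneg v)).2 fun i => ?_, norm_le_pi_norm v 2⟩
    fin_cases i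
    · exact norm_le_pi_norm v 0
    · exact norm_le_pi_norm v 1
  · refine (pi_norm_le_iff_of_nonneg (norm_nonneg _)).2 fun i => ?_
    have h1 : ‖(![v 0, v 1] : Fin (1 + 1) → ℤ)‖ ≤ ‖((![v 0, v 1], v 2) : (Fin (1 + 1) → ℤ) × ℤ)‖ :=
      _root_.norm_fst_le ((![v 0, v 1], v 2) : (Fin (1 + 1) → ℤ) × ℤ)
    have h2 : ‖v 2‖ ≤ ‖((![v 0, v 1], v 2) : (Fin (1 + 1) → ℤ) × ℤ)‖ :=
      _root_.norm_snd_le ((![v 0, v 1], v 2) : (Fin (1 + 1) → ℤ) × ℤ)
    fin_cases i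
    · exact (norm_le_pi_norm (![v 0, v 1] : Fin (1 + 1) → ℤ) 0).trans h1
    · exact (norm_le_pi_norm (![v 0, v 1] : Fin (1 + 1) → ℤ) 1).trans h1
    · exact h2

theorem part2 (t w ρ : ℝ) (hw : 3 < w) (hρ : 1 < ρ) (hρw : ρ < (w - 1) / 2) : ∃ C : ℝ, ∀ X : ℝ, 3 ≤ X →
      {v ∈ Near t w | ‖v‖ ≤ X}.Finite ∧
      ({v ∈ Near t w | ‖v‖ ≤ X}.ncard : ℝ) ≤ Real.log (Real.log X) / Real.log ρ + C := by
  have hρ2 : 2 * ρ < w - 1 := by linarith
  obtain ⟨η, hηE⟩ : ∃ η : ℝ, η = min ((w - 3) / 4) ((w - 1 - 2 * ρ) / (2 * (ρ + 1))) := ⟨_, rfl⟩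
  have hη : 0 < η := by
    rw [hηE]
    exact lt_min (by linarith) (div_pos (by linarith) (by linarith))
  have hη1 : η ≤ (w - 3) / 4 := by rw [hηE]; exact min_le_left _ _
  have hη2 : η ≤ (w - 1 - 2 * ρ) / (2 * (ρ + 1)) := by rw [hηE]; exact min_le_right _ _
  have hη3 : η * (2 * (ρ + 1)) ≤ w - 1 - 2 * ρ := (le_div_iff₀ (by linarith)).1 hη2
  obtain ⟨c, hc, h⟩ := meas 1 η hη
  obtain ⟨C, hC⟩ := Pool.Agent.TH647.NR.sparse _ (((1 : ℕ) : ℝ) + η) c (by positivity) hc h t w ρ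
    (by push_cast; linarith) hρ (by
      rw [lt_div_iff₀ (by positivity)]
      push_cast
      nlinarith)
  refine ⟨C, fun X hX => ?_⟩
  obtain ⟨h1, h2⟩ := hC X hX
  have hmaps : ∀ v ∈ {v ∈ Near t w | ‖v‖ ≤ X}, ((![v 0, v 1], v 2) : (Fin (1 + 1) → ℤ) × ℤ) ∈
      {v ∈ {v : (Fin (1 + 1) → ℤ) × ℤ | 0 < v.2 ∧ Pool.Agent.TH647.NR.Prim v ∧
        |Pool.Agent.TH647.NR.lin (fun i : Fin (1 + 1) => Real.exp (((i : ℕ) : ℤ) : ℝ)) t v| ≤
          ‖v‖ ^ (-w)} | ‖v‖ ≤ X} := by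
    rintro v ⟨⟨h3, h4, h5⟩, h6⟩
    refine ⟨⟨h3, ?_, ?_⟩, ?_⟩
    · intro d hd hd2
      refine h4 d fun i => ?_
      fin_cases i
      · exact hd 0
      · exact hd 1
      · exact hd2
    · rw [norm_vec]
      refine le_trans (le_of_eq (congrArg abs ?_)) h5
      unfold Pool.Agent.TH647.NR.lin lin
      rw [Fin.sum_univ_two]
      simp [exp_pow]
    · rw [norm_vec]
      exact h6
  have hinj : Set.InjOn (fun v : Fin 3 → ℤ => ((![v 0, v 1], v 2) : (Fin (1 + 1) → ℤ) × ℤ))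
      {v ∈ Near t w | ‖v‖ ≤ X} := by
    intro v _ v' _ hvv
    have e0 := congrFun (congrArg Prod.fst hvv) 0
    have e1 := congrFun (congrArg Prod.fst hvv) 1
    have e2 := congrArg Prod.snd hvv
    simp at e0 e1 e2
    funext i
    fin_cases i <;> simp [e0, e1, e2]
  refine ⟨Set.Finite.of_injOn hmaps hinj h1, le_trans ?_ h2⟩
  exact_mod_cast Set.ncard_le_ncard_of_injOn _ hmaps hinj h1

/-- the value of a polynomial of degree at most `m` in the outer and at most `n` in the inner variable -/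
theorem val_eq (n m : ℕ) (t : ℝ) (P : ℤ[X][X]) (h : P.natDegree ≤ m) (h' : ∀ j, (P.coeff j).natDegree ≤ n) :
    val t P = ∑ i : Fin (n + 1), ((P.coeff 0).coeff i : ℝ) * Real.exp 1 ^ (i : ℕ) +
      ∑ q : Fin (n + 1) × Fin m, ((P.coeff (q.2 + 1)).coeff q.1 : ℝ) *
        (Real.exp 1 ^ (q.1 : ℕ) * t ^ ((q.2 : ℕ) + 1)) := by
  have hin : ∀ j, aeval (Real.exp 1) (P.coeff j) =
      ∑ i : Fin (n + 1), ((P.coeff j).coeff i : ℝ) * Real.exp 1 ^ (i : ℕ) := by
    intro j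
    rw [aeval_eq_sum_range' (show (P.coeff j).natDegree < n + 1 by have := h' j; omega), Finset.sum_range]
    exact Finset.sum_congr rfl fun i _ => by rw [zsmul_eq_mul]
  have h1 : val t P = ∑ j ∈ Finset.range (m + 1), aeval (Real.exp 1) (P.coeff j) * t ^ j := by
    unfold val
    rw [eval_eq_sum_range' (show (P.map _).natDegree < m + 1 from
      lt_of_le_of_lt (natDegree_map_le) (by omega))]
    refine Finset.sum_congr rfl fun j _ => ?_
    rw [coeff_map]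
    rfl
  rw [h1, Finset.sum_range_succ', add_comm, pow_zero, mul_one, hin]
  congr 1
  rw [Fintype.sum_prod_type, Finset.sum_comm, Finset.sum_range]
  refine Finset.sum_congr rfl fun j _ => ?_
  rw [hin, Finset.sum_mul]
  exact Finset.sum_congr rfl fun i _ => by ring

theorem part4 (n m : ℕ) (η : ℝ) (hη : 0 < η) : ∃ C : ℝ, 0 < C ∧ ∀ (t : ℝ) (X : ℝ), 1 ≤ X →
      ∀ P : Fin ((n + 1) * m + 1) → ℤ[X][X], LinearIndependent ℤ P → (∀ k, (P k).natDegree ≤ m) →
        (∀ k j, ((P k).coeff j).natDegree ≤ n) → (∀ k j i, |((((P k).coeff j).coeff i : ℤ) : ℝ)| ≤ X) →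
        ∃ k, C * X ^ (-((n + η) * ((n + 1) * m + 1) + (n + 1) * m)) ≤ |val t (P k)| := by
  obtain ⟨C, hC, h⟩ := part3 n ((n + 1) * m) η hη
  refine ⟨C, hC, fun t X hX P hP hd hd' hcoef => ?_⟩
  obtain ⟨v, hv⟩ : ∃ v : Fin ((n + 1) * m + 1) → (Fin (n + 1) → ℤ) × (Fin ((n + 1) * m) → ℤ), v = fun k =>
    ((fun i : Fin (n + 1) => ((P k).coeff 0).coeff (i : ℕ)),
      (fun q : Fin ((n + 1) * m) => ((P k).coeff ((finProdFinEquiv.symm q).2 + 1)).coeff
        ((finProdFinEquiv.symm q).1 : ℕ))) := ⟨_, rfl⟩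
  have hv1 : ∀ k i, (v k).1 i = ((P k).coeff 0).coeff (i : ℕ) := fun k i => by rw [hv]
  have hv2 : ∀ k q, (v k).2 q = ((P k).coeff ((finProdFinEquiv.symm q).2 + 1)).coeff
        ((finProdFinEquiv.symm q).1 : ℕ) := fun k q => by rw [hv]
  have hvl : LinearIndependent ℤ v := by
    rw [Fintype.linearIndependent_iff] at hP ⊢
    intro g hg
    refine hP g ?_
    have hcoe : ∀ j i : ℕ, ∑ k, g k * ((P k).coeff j).coeff i = 0 := by
      intro j i
      rcases Nat.lt_or_ge n i with hi | hi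
      · refine Finset.sum_eq_zero fun k _ => ?_
        rw [coeff_eq_zero_of_natDegree_lt (lt_of_le_of_lt (hd' k j) hi), mul_zero]
      · rcases Nat.lt_or_ge m j with hj | hj
        · refine Finset.sum_eq_zero fun k _ => ?_
          rw [coeff_eq_zero_of_natDegree_lt (lt_of_le_of_lt (hd k) hj), coeff_zero, mul_zero]
        · rcases Nat.eq_zero_or_pos j with hj0 | hj0
          · subst hj0
            have h3 := congrFun (congrArg Prod.fst hg) ⟨i, by omega⟩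
            rw [Prod.fst_sum, Finset.sum_apply] at h3
            simp only [Prod.smul_fst, Pi.smul_apply, smul_eq_mul, hv1, Prod.fst_zero,
              Pi.zero_apply] at h3
            exact h3
          · have h3 := congrFun (congrArg Prod.snd hg)
              (finProdFinEquiv (⟨i, by omega⟩, ⟨j - 1, by omega⟩))
            rw [Prod.snd_sum, Finset.sum_apply] at h3
            have h5 : j - 1 + 1 = j := by omega
            simp only [Prod.smul_snd, Pi.smul_apply, smul_eq_mul, hv2, Equiv.symm_apply_apply, h5,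
              Prod.snd_zero, Pi.zero_apply] at h3
            exact h3
    ext j i
    simpa [Polynomial.finsetSum_coeff] using hcoe j i
  have hvn : ∀ k, ‖v k‖ ≤ X := by
    intro k
    have hX0 : 0 ≤ X := by linarith
    have hcast : ∀ n : ℤ, ‖n‖ = |(n : ℝ)| := fun n => rfl
    rw [Prod.norm_def, max_le_iff]
    refine ⟨(pi_norm_le_iff_of_nonneg hX0).2 fun i => ?_,
      (pi_norm_le_iff_of_nonneg hX0).2 fun i => ?_⟩
    · rw [hv1, hcast]
      exact hcoef k _ _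
    · rw [hv2, hcast]
      exact hcoef k _ _
  obtain ⟨k, hk⟩ := h (fun q => Real.exp 1 ^ ((finProdFinEquiv.symm q).1 : ℕ) *
    t ^ (((finProdFinEquiv.symm q).2 : ℕ) + 1)) X hX v hvl hvn
  refine ⟨k, ?_⟩
  have e1 : form (fun q : Fin ((n + 1) * m) => Real.exp 1 ^ ((finProdFinEquiv.symm q).1 : ℕ) *
      t ^ (((finProdFinEquiv.symm q).2 : ℕ) + 1)) (v k) = val t (P k) := by
    rw [val_eq n m t (P k) (hd k) (hd' k)]
    unfold form
    simp only [hv1, hv2]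
    congr 1
    exact (Equiv.sum_comp finProdFinEquiv.symm (fun q : Fin (n + 1) × Fin m =>
      (((P k).coeff (q.2 + 1)).coeff q.1 : ℝ) * (Real.exp 1 ^ (q.1 : ℕ) * t ^ ((q.2 : ℕ) + 1))))
  rw [e1] at hk
  refine le_trans (le_of_eq ?_) hk
  congr 2
  push_cast
  ring

theorem result :
    (∀ η : ℝ, 0 < η → ∃ C : ℝ, 0 < C ∧ ∀ (t X : ℝ), 1 ≤ X → ∀ v v' : Fin 3 → ℤ, ‖v‖ ≤ X → ‖v'‖ ≤ X →
      LinearIndependent ℤ ![v, v'] → C * X ^ (-(3 + η)) ≤ max |lin t v| |lin t v'|) ∧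
    (∀ t w ρ : ℝ, 3 < w → 1 < ρ → ρ < (w - 1) / 2 → ∃ C : ℝ, ∀ X : ℝ, 3 ≤ X →
      {v ∈ Near t w | ‖v‖ ≤ X}.Finite ∧
      ({v ∈ Near t w | ‖v‖ ≤ X}.ncard : ℝ) ≤ Real.log (Real.log X) / Real.log ρ + C) ∧
    (∀ (n r : ℕ) (η : ℝ), 0 < η → ∃ C : ℝ, 0 < C ∧ ∀ (t : Fin r → ℝ) (X : ℝ), 1 ≤ X →
      ∀ v : Fin (r + 1) → (Fin (n + 1) → ℤ) × (Fin r → ℤ), LinearIndependent ℤ v → (∀ k, ‖v k‖ ≤ X) →
        ∃ k, C * X ^ (-((n + η) * (r + 1) + r)) ≤ |form t (v k)|) ∧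
    (∀ (n m : ℕ) (η : ℝ), 0 < η → ∃ C : ℝ, 0 < C ∧ ∀ (t : ℝ) (X : ℝ), 1 ≤ X →
      ∀ P : Fin ((n + 1) * m + 1) → ℤ[X][X], LinearIndependent ℤ P → (∀ k, (P k).natDegree ≤ m) →
        (∀ k j, ((P k).coeff j).natDegree ≤ n) → (∀ k j i, |((((P k).coeff j).coeff i : ℤ) : ℝ)| ≤ X) →
        ∃ k, C * X ^ (-((n + η) * ((n + 1) * m + 1) + (n + 1) * m)) ≤ |val t (P k)|) := by
  exact ⟨part1, part2, part3, part4⟩

end Pool.Agent.Results.MP_58e087_nt.NearRelations
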